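import Pool.Agent.Helper69.LT.St

/-! LT module Exp: the weighted expansion in `M + 1` steps. -/

set_option autoImplicit false
open scoped BigOperators
open Pool.LE Pool.NL

namespace Pool.LT

namespace ExpM

variable {V : Type} [DecidableEq V] {R : Type} [CommRing R] [Algebra ℝ R]

theorem Ex_zero (E : Finset (Sym2 V)) (p : ℝ) : Ex E p (fun _ => (0 : R)) = 0 := by
  simp [Ex]

theorem Ex_mul (E : Finset (Sym2 V)) (p : ℝ) (f : Finset (Sym2 V) → R) (P : R) :
    Ex E p (fun ω => f ω * P) = Ex E p f * P := by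
  simp only [Ex, Finset.sum_mul, smul_mul_assoc]

theorem Lop_add (hLin : SLin) (E : Finset (Sym2 V)) (p : ℝ) (L : Finset V) (r : V → R)
    (Φ Ψ : Set V → V → V → R) :
    Lop E p L r (Φ + Ψ) = Lop E p L r Φ + Lop E p L r Ψ := by
  funext A v x
  exact (hLin V R L r E p V).1 Φ Ψ A v x

/-- `Lop` as an additive homomorphism -/
noncomputable def Lh (hLin : SLin) (E : Finset (Sym2 V)) (p : ℝ) (L : Finset V) (r : V → R) :
    (Set V → V → V → R) →+ (Set V → V → V → R) :=
  AddMonoidHom.mk' (Lop E p L r) (Lop_add hLin E p L r)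

theorem Lh_iter (hLin : SLin) (E : Finset (Sym2 V)) (p : ℝ) (L : Finset V) (r : V → R) (n : ℕ) :
    (Lh hLin E p L r : (Set V → V → V → R) → _)^[n] = (Lop E p L r)^[n] := rfl

theorem iter_add (hLin : SLin) (E : Finset (Sym2 V)) (p : ℝ) (L : Finset V) (r : V → R) (n : ℕ)
    (Φ Ψ : Set V → V → V → R) :
    (Lop E p L r)^[n] (Φ + Ψ) = (Lop E p L r)^[n] Φ + (Lop E p L r)^[n] Ψ := by
  rw [← Lh_iter hLin]
  exact iterate_map_add (Lh hLin E p L r) n Φ Ψ

theorem iter_sub (hLin : SLin) (E : Finset (Sym2 V)) (p : ℝ) (L : Finset V) (r : V → R) (n : ℕ)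
    (Φ Ψ : Set V → V → V → R) :
    (Lop E p L r)^[n] (Φ - Ψ) = (Lop E p L r)^[n] Φ - (Lop E p L r)^[n] Ψ := by
  rw [← Lh_iter hLin]
  exact iterate_map_sub (Lh hLin E p L r) n Φ Ψ

/-- the full two-point function, as a kernel -/
noncomputable def GK (E : Finset (Sym2 V)) (p : ℝ) (L : Finset V) (r : V → R) :
    Set V → V → V → R := fun _ b x => GT E p L r b x

theorem DT_eq (hStep : SStep) (hLin : SLin) (E : Finset (Sym2 V)) (p : ℝ) (L : Finset V)
    (r : V → R) :
    DT E p L r = WT E p L r + Lop E p L r (GK E p L r) - Lop E p L r (DT E p L r) := by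
  have h1 : GTA E p L r = GK E p L r - DT E p L r := by
    funext A v x
    simp only [GK, DT, Pi.sub_apply]
    ring
  have h2 : Lop E p L r (GTA E p L r) = Lop E p L r (GK E p L r) - Lop E p L r (DT E p L r) := by
    rw [h1]
    exact iter_sub hLin E p L r 1 _ _
  have h3 : DT E p L r = WT E p L r + Lop E p L r (GTA E p L r) := by
    funext A v x
    exact hStep V R L r E p A v x
  rw [h2] at h3
  conv_lhs => rw [h3]
  abel

theorem expand (hStep : SStep) (hLin : SLin) (E : Finset (Sym2 V)) (p : ℝ) (L : Finset V)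
    (r : V → R) (M : ℕ) (A : Set V) (v x : V) :
    DT E p L r A v x = ∑ N ∈ Finset.range (M + 1), (-1) ^ N *
      (((Lop E p L r)^[N] (WT E p L r)) A v x +
        ((Lop E p L r)^[N] (Lop E p L r (GK E p L r))) A v x) +
      (-1) ^ (M + 1) * ((Lop E p L r)^[M + 1] (DT E p L r)) A v x := by
  induction M with
  | zero =>
    have h := congrFun (congrFun (congrFun (DT_eq hStep hLin E p L r) A) v) x
    rw [h]
    simp only [Pi.sub_apply, Pi.add_apply, Finset.range_one, Finset.sum_singleton, pow_zero,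
      Function.iterate_zero, id, Function.iterate_one, zero_add, pow_one, one_mul]
    ring
  | succ M ih =>
    rw [ih, Finset.sum_range_succ _ (M + 1)]
    have h : (Lop E p L r)^[M + 1] (DT E p L r) = (Lop E p L r)^[M + 1] (WT E p L r) +
        (Lop E p L r)^[M + 1] (Lop E p L r (GK E p L r)) -
          (Lop E p L r)^[M + 1 + 1] (DT E p L r) := by
      conv_lhs => rw [DT_eq hStep hLin E p L r]
      rw [iter_sub hLin, iter_add hLin,
        ← Function.iterate_succ_apply (Lop E p L r) (M + 1) (DT E p L r)]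
    have h' := congrFun (congrFun (congrFun h A) v) x
    simp only [Pi.sub_apply, Pi.add_apply] at h'
    rw [h']
    ring

theorem Lop_GK (E : Finset (Sym2 V)) (p : ℝ) (L : Finset V) (r : V → R) :
    Lop E p L r (GK E p L r) = fun A v x =>
      ∑ ub ∈ drt E, p • (W3 E p L r A v ub * GT E p L r ub.2 x) := by
  funext A v x
  simp only [Lop, GK, W3, Ex_mul]

theorem iter_GK (hLin : SLin) (E : Finset (Sym2 V)) (p : ℝ) (L : Finset V) (r : V → R) (N : ℕ)
    (A : Set V) (v x : V) :
    ((Lop E p L r)^[N] (Lop E p L r (GK E p L r))) A v x =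
      ∑ ub ∈ drt E, p • (((Lop E p L r)^[N] (W3 E p L r)) A v ub * GT E p L r ub.2 x) := by
  rw [Lop_GK]
  exact (hLin V R L r E p V).2.2.2 (W3 E p L r) (fun b x => GT E p L r b x) A v x N

theorem GTA_self (E : Finset (Sym2 V)) (p : ℝ) (L : Finset V) (r : V → R) (v x : V) :
    GTA E p L r {v} v x = 0 := by
  have h3 : (fun ω : Finset (Sym2 V) => mA L r ω {v} v x) = fun _ => (0 : R) := by
    funext ω
    simp [mA]
  rw [GTA, h3]
  exact Ex_zero E p

end ExpM

open ExpM

/-- LT-Exp. -/
theorem hExp : SVan → SStep → SLin → SExp := by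
  intro _ hStep hLin V _ R _ _ L r E p M v x
  have h1 := expand hStep hLin E p L r M {v} v x
  have h2 : DT E p L r {v} v x = GT E p L r v x := by
    rw [DT, GTA_self, sub_zero]
  rw [h2] at h1
  rw [h1]
  congr 1
  simp only [gM, mul_add, Finset.sum_add_distrib, iter_GK hLin]
  congr 1
  simp only [pM, Finset.mul_sum, Finset.sum_mul, Finset.smul_sum]
  rw [Finset.sum_comm]
  refine Finset.sum_congr rfl fun ub _ => Finset.sum_congr rfl fun N _ => ?_
  rw [mul_smul_comm, mul_assoc]

end Pool.LT
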